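import Pool.Agent.Lib.MP_1ab58f_nt.Main

/-!
# MP_1ab58f_nt, Q1: the uniform exponent of degree four can exceed four

For a natural number `n` and a real number `ξ` the uniform exponent is the supremum, in the
extended real numbers, of all real `w` such that for every sufficiently large real `H` there is a
nonzero integer polynomial `P` of degree at most `n` and height at most `H` with
`0 < |P(ξ)| ≤ H ^ (-w)`. There is a real transcendental number whose uniform exponent of degree
four is at least `17 / 4`.
-/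

set_option autoImplicit false

open Polynomial

namespace Pool.Agent.Results.MP_1ab58f_nt.DegreeFourExponent

/-- For every sufficiently large real `H` there is a nonzero integer polynomial `P` of degree at
most `n`, all of whose coefficients have absolute value at most `H`, with
`0 < |P(ξ)| ≤ H ^ (-w)`. -/
def UniformlyApproximable (n : ℕ) (ξ w : ℝ) : Prop :=
  ∃ H₀ : ℝ, ∀ H : ℝ, H₀ ≤ H → ∃ P : ℤ[X], P ≠ 0 ∧ P.natDegree ≤ n ∧
    (∀ i : ℕ, |((P.coeff i : ℤ) : ℝ)| ≤ H) ∧
    0 < |aeval ξ P| ∧ |aeval ξ P| ≤ H ^ (-w)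

/-- The uniform exponent of `ξ` in degree `n`: the supremum in the extended real numbers of all
real `w` with `UniformlyApproximable n ξ w`. -/
noncomputable def uniformExponent (n : ℕ) (ξ : ℝ) : EReal :=
  sSup {x : EReal | ∃ w : ℝ, UniformlyApproximable n ξ w ∧ x = (w : EReal)}

/-- There is a real transcendental number whose uniform exponent in degree four is at least
`17 / 4`. -/
theorem result :
    ∃ ξ : ℝ, Transcendental ℚ ξ ∧ ((17 / 4 : ℝ) : EReal) ≤ uniformExponent 4 ξ := by
  obtain ⟨ξ, htr, H₀, hH⟩ := Pool.Agent.MP1ab58f.main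
  refine ⟨ξ, htr, le_sSup ⟨17 / 4, ⟨H₀, fun H hH₀ => ?_⟩, rfl⟩⟩
  obtain ⟨P, hP0, hdeg, hc, hval⟩ := hH H hH₀
  refine ⟨P, hP0, hdeg, hc, abs_pos.mpr fun h0 => hP0 ?_, hval⟩
  have htrZ : Transcendental ℤ ξ := fun halg =>
    htr ((IsFractionRing.isAlgebraic_iff ℤ ℚ ℝ).mp halg)
  exact (transcendental_iff.mp htrZ) P h0

end Pool.Agent.Results.MP_1ab58f_nt.DegreeFourExponent
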